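import Pool.Agent.helper36.MP.SpecN

/-!
# mp:NHP. The left neighbour across a flat disc
-/

set_option autoImplicit false

open Complex Metric Set Filter Topology MeasureTheory

namespace MPS

theorem NHP_lim {k : ℕ} [NeZero k] {b g : ZMod k → ℂ} {i : ZMod k} {ψ : ℂ → ℂ}
    (h : PN b g i ψ 1) (v : ℂ) :
    Tendsto (fun t : ℝ => hat ψ (v + (t : ℂ))) atBot (𝓝 (b i)) := by
  have h1 : Tendsto (fun t : ℝ => Complex.exp (v + (t : ℂ))) atBot (𝓝 0) := by
    rw [tendsto_zero_iff_norm_tendsto_zero]
    have h2 : ∀ t : ℝ, ‖Complex.exp (v + (t : ℂ))‖ = Real.exp v.re * Real.exp t := by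
      intro t
      rw [Complex.norm_exp, Complex.add_re, Complex.ofReal_re, Real.exp_add]
    simp only [h2]
    simpa using Real.tendsto_exp_atBot.const_mul (Real.exp v.re)
  have h3 : ContinuousAt ψ 0 :=
    (h.diff.differentiableAt (ball_mem_nhds 0 h.pos)).continuousAt
  have h4 := h3.tendsto.comp h1
  rw [h.val] at h4
  exact h4

theorem NHP (hNU : NU_stmt) (hNH : NH_stmt) : NHP_stmt := by
  intro k _ b g i l ψ ψ' χ y ρ v hb hil hψ hψ' hρ hχ hE hv hm
  obtain ⟨u, hu, huv⟩ := hm
  have hv16 : v ∈ ball ((y : ℂ) * I) (16 * ρ) := ball_subset_ball (by linarith) hv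
  have hvΩ : v ∈ HP 0 ∪ ball ((y : ℂ) * I) (16 * ρ) := Or.inr hv16
  have hu0 : u ≠ 0 := by
    rintro rfl
    exact hχ.av v hvΩ l (by rw [← huv, hψ'.val])
  have hexp : Complex.exp (Complex.log u) = u := Complex.exp_log hu0
  have hre : (Complex.log u).re < 0 := by
    rw [Complex.log_re]
    exact Real.log_neg (norm_pos_iff.2 hu0) (mem_ball_zero_iff.1 hu)
  have hnat' := (hNH k b g l ψ' 1 hψ').1
  rw [Real.log_one] at hnat'
  have o1 : IsOpen (HP 0 ∪ ball ((y : ℂ) * I) (16 * ρ)) :=
    (isOpen_lt Complex.continuous_re continuous_const).union isOpen_ball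
  have o2 : IsOpen {w : ℂ | w.re < 0} := isOpen_lt Complex.continuous_re continuous_const
  obtain ⟨s, hs, -, -, hseg⟩ := hNU k b g χ (hat ψ') (HP 0 ∪ ball ((y : ℂ) * I) (16 * ρ))
    {w | w.re < 0} v (Complex.log u) o1 o2 hχ hnat' hvΩ hre
    (by
      show χ v = ψ' (Complex.exp (Complex.log u))
      rw [hexp]
      exact huv.symm)
  have hvre : |v.re| < 5 * ρ := by
    have h1 := Complex.abs_re_le_norm (v - (y : ℂ) * I)
    have h2 : ‖v - (y : ℂ) * I‖ < 5 * ρ := by
      rw [← dist_eq_norm]
      exact hv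
    have h3 : (v - (y : ℂ) * I).re = v.re := by simp
    rw [h3] at h1
    linarith
  have hvim : |v.im - y| < 5 * ρ := by
    have h1 := Complex.abs_im_le_norm (v - (y : ℂ) * I)
    have h2 : ‖v - (y : ℂ) * I‖ < 5 * ρ := by
      rw [← dist_eq_norm]
      exact hv
    have h3 : (v - (y : ℂ) * I).im = v.im - y := by simp
    rw [h3] at h1
    linarith
  rcases hs with hs | hs
  · exfalso
    -- shift to the left
    have hleft : ∀ t : ℝ, t ≤ 0 → χ (v + (t : ℂ)) = hat ψ' (Complex.log u + (t : ℂ)) := by
      intro t ht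
      have h1 := (hseg (t : ℂ) ?_).1
      · rw [hs, one_mul] at h1
        exact h1
      · intro r hr
        have hrt : r * t ≤ 0 := mul_nonpos_of_nonneg_of_nonpos hr.1 ht
        refine ⟨?_, ?_⟩
        · by_cases hc : (v + (r : ℂ) * (t : ℂ)).re < 0
          · left
            show _ < -(0 : ℝ)
            rw [neg_zero]
            exact hc
          · right
            rw [mem_ball, dist_eq_norm]
            refine (Complex.norm_le_abs_re_add_abs_im _).trans_lt ?_
            have e1 : (v + (r : ℂ) * (t : ℂ) - (y : ℂ) * I).re = v.re + r * t := by simp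
            have e2 : (v + (r : ℂ) * (t : ℂ) - (y : ℂ) * I).im = v.im - y := by simp
            have e3 : (v + (r : ℂ) * (t : ℂ)).re = v.re + r * t := by simp
            rw [e1, e2]
            rw [e3] at hc
            have h4 := not_lt.1 hc
            rw [abs_of_nonneg h4]
            have h5 := (abs_lt.1 hvre).2
            linarith
        · show (Complex.log u + s * ((r : ℂ) * (t : ℂ))).re < 0
          rw [hs, one_mul]
          have e3 : (Complex.log u + (r : ℂ) * (t : ℂ)).re = (Complex.log u).re + r * t := by simp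
          rw [e3]
          linarith
    have l1 := NHP_lim hψ v
    have l2 := NHP_lim hψ' (Complex.log u)
    have l3 : (fun t : ℝ => hat ψ (v + (t : ℂ))) =ᶠ[atBot]
        fun t : ℝ => hat ψ' (Complex.log u + (t : ℂ)) := by
      filter_upwards [eventually_lt_atBot (-(5 * ρ))] with t ht
      rw [← hleft t (by linarith)]
      refine (hE ?_).symm
      show (v + (t : ℂ)).re < -(0 : ℝ)
      rw [Complex.add_re, Complex.ofReal_re]
      have h5 := (abs_lt.1 hvre).2
      linarith
    exact hil (hb (tendsto_nhds_unique l1 (l2.congr' l3.symm)))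
  · have h6 : (y : ℂ) * I + 6 * ρ ∈ ball ((y : ℂ) * I) (16 * ρ) := by
      rw [mem_ball, dist_eq_norm, add_sub_cancel_left]
      have : ‖(6 : ℂ) * (ρ : ℂ)‖ = 6 * ρ := by
        rw [norm_mul, Complex.norm_real, Real.norm_of_nonneg hρ.le]
        norm_num
      rw [this]
      linarith
    have h7 := (hseg ((y : ℂ) * I + 6 * ρ - v) ?_).1
    · rw [add_sub_cancel] at h7
      rw [h7]
      refine ⟨Complex.exp (Complex.log u + s * ((y : ℂ) * I + 6 * ρ - v)), ?_, rfl⟩
      rw [mem_ball_zero_iff, Complex.norm_exp, Real.exp_lt_one_iff, hs]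
      have e3 : (Complex.log u + -1 * ((y : ℂ) * I + 6 * ρ - v)).re =
          (Complex.log u).re - (6 * ρ - v.re) := by simp; ring
      rw [e3]
      have h5 := (abs_lt.1 hvre).2
      linarith
    · intro r hr
      refine ⟨Or.inr ?_, ?_⟩
      · have hc := convex_ball ((y : ℂ) * I) (16 * ρ)
        have h8 := hc hv16 h6 (by linarith [hr.2] : (0 : ℝ) ≤ 1 - r) hr.1 (by ring)
        have e4 : v + (r : ℂ) * ((y : ℂ) * I + 6 * ρ - v) =
            (1 - r) • v + r • ((y : ℂ) * I + 6 * ρ) := by
          rw [Complex.real_smul, Complex.real_smul]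
          push_cast
          ring
        rw [e4]
        exact h8
      · show (Complex.log u + s * ((r : ℂ) * ((y : ℂ) * I + 6 * ρ - v))).re < 0
        rw [hs]
        have e3 : (Complex.log u + -1 * ((r : ℂ) * ((y : ℂ) * I + 6 * ρ - v))).re =
            (Complex.log u).re - r * (6 * ρ - v.re) := by simp; ring
        rw [e3]
        have h5 := (abs_lt.1 hvre).2
        have h9 : 0 ≤ r * (6 * ρ - v.re) := mul_nonneg hr.1 (by linarith)
        linarith

end MPS
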